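import Pool.Agent.H7.HD.Targets12
import Pool.Agent.H3.HD.DM
import Pool.Agent.H1.HD9.Y5

/-! DSA of hd8_modules: definability of satisfaction. -/

open Ordinal Cardinal Order Set
open scoped ZFSet

universe u

namespace Pool.Agent.H65.HDB.DSA

open _root_.HD

/-- the value of the variable `n` -/
noncomputable def ev (m : ℕ) (v : ℕ → ZFSet.{u}) (s : ℕ → ZFSet.{u}) (n : ℕ) : ZFSet.{u} :=
  if n < m then s (n + 1) else v (n - m) ∩ V_ (s 0).rank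

theorem dz_ev (m : ℕ) (v : ℕ → ZFSet.{u}) (hv : ∀ n, OD (v n)) (i : ℕ) :
    DZ.{u} fun s => (s 1).IsOrdinal ∧ s 0 = ev m v (fun n => s (n + 1)) i := by
  by_cases hi : i < m
  · refine ((DZ.ord 1).and (DZ.eq 0 (i + 2))).congr fun s => ?_
    simp [ev, hi]
  · have h1 : DZ.{u} fun s => ∃ V, ((s 2).IsOrdinal ∧ V = V_ (s 2).rank) ∧
        ∀ t, t ∈ s 1 ↔ t ∈ s 0 ∧ t ∈ V := by
      refine DZ.ex (R := fun V s => ((s 2).IsOrdinal ∧ V = V_ (s 2).rank) ∧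
        ∀ t, t ∈ s 1 ↔ t ∈ s 0 ∧ t ∈ V) (DZ.and (loc_V 3 0).dz ?_)
      exact DZ.all (R := fun t s => t ∈ s 2 ↔ t ∈ s 1 ∧ t ∈ s 0)
        ((DZ.mem 0 3).iff ((DZ.mem 0 2).and (DZ.mem 0 1)))
    have h2 := DZ.od (hv (i - m)) (R := fun a s => ∃ V, ((s 1).IsOrdinal ∧ V = V_ (s 1).rank) ∧
        ∀ t, t ∈ s 0 ↔ t ∈ a ∧ t ∈ V) h1
    refine h2.congr fun s => ?_
    simp only [ev, hi, if_false]
    constructor
    · rintro ⟨h3, h4⟩
      refine ⟨_, ⟨h3, rfl⟩, fun t => ?_⟩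
      rw [h4, ZFSet.mem_inter]
    · rintro ⟨V, ⟨h3, rfl⟩, h4⟩
      refine ⟨h3, ?_⟩
      ext t
      rw [h4, ZFSet.mem_inter]

theorem dz_at {Q : ZFSet.{u} → ZFSet.{u} → Prop} (hQ : DZ fun s => Q (s 0) (s 1))
    (m : ℕ) (v : ℕ → ZFSet.{u}) (hv : ∀ n, OD (v n)) (i j : ℕ) :
    DZ.{u} fun s => (s 0).IsOrdinal ∧ Q (ev m v s i) (ev m v s j) := by
  have h1 : DZ.{u} fun s => ∃ x y, ((s 0).IsOrdinal ∧ x = ev m v s i) ∧
      ((s 0).IsOrdinal ∧ y = ev m v s j) ∧ Q x y := by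
    refine DZ.ex (R := fun x s => ∃ y, ((s 0).IsOrdinal ∧ x = ev m v s i) ∧
      ((s 0).IsOrdinal ∧ y = ev m v s j) ∧ Q x y) ?_
    refine DZ.ex (R := fun y s => ((s 1).IsOrdinal ∧ s 0 = ev m v (fun n => s (n + 1)) i) ∧
      ((s 1).IsOrdinal ∧ y = ev m v (fun n => s (n + 1)) j) ∧ Q (s 0) y) ?_
    refine DZ.and ?_ (DZ.and ?_ ?_)
    · exact (dz_ev m v hv i).ren (fun n => n + 1)
    · exact (dz_ev m v hv j).ren (fun n => if n = 0 then 0 else n + 1)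
    · exact hQ.ren (fun n => if n = 0 then 1 else 0)
  refine h1.congr fun s => ?_
  constructor
  · rintro ⟨h2, h3⟩
    exact ⟨_, _, ⟨h2, rfl⟩, ⟨h2, rfl⟩, h3⟩
  · rintro ⟨x, y, ⟨h2, rfl⟩, ⟨-, rfl⟩, h3⟩
    exact ⟨h2, h3⟩

theorem dz_VH : DZ.{u} fun s => (s 1).IsOrdinal ∧ VH (s 1).rank (s 0) := by
  have h1 : DZ.{u} fun s => ∃ V, ((s 1).IsOrdinal ∧ V = V_ (s 1).rank) ∧ ∀ z ∈ s 0, z ∈ V := by
    refine DZ.ex (R := fun V s => ((s 1).IsOrdinal ∧ V = V_ (s 1).rank) ∧ ∀ z ∈ s 0, z ∈ V)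
      (DZ.and (loc_V 2 0).dz ?_)
    exact DZ.allMem (R := fun z s => z ∈ s 0) 1 (DZ.mem 0 1)
  refine ((Pool.Agent.H3.HD.DM.dz_hod 0).and h1).congr fun s => ?_
  constructor
  · rintro ⟨h2, h3, h4⟩
    exact ⟨h3, _, ⟨h2, rfl⟩, h4⟩
  · rintro ⟨h3, V, ⟨h2, rfl⟩, h4⟩
    exact ⟨h2, h3, h4⟩

theorem X : T_DSA.{u} := by
  intro φ
  have key : ∀ (m : ℕ) (v : ℕ → ZFSet.{u}), (∀ n, OD (v n)) →
      DZ fun s => (s 0).IsOrdinal ∧ Sat (VH (s 0).rank) φ (ev m v s) := by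
    induction φ with
    | mem i j => exact fun m v hv => dz_at (Q := fun x y => x ∈ y) (DZ.mem 0 1) m v hv i j
    | eq i j => exact fun m v hv => dz_at (Q := fun x y => x = y) (DZ.eq 0 1) m v hv i j
    | neg φ ih =>
      intro m v hv
      refine ((DZ.ord 0).and (ih m v hv).not).congr fun s => ?_
      show _ ∧ ¬ _ ↔ _
      tauto
    | and φ ψ ih ih' =>
      intro m v hv
      refine ((ih m v hv).and (ih' m v hv)).congr fun s => ?_
      show _ ∧ (_ ∧ _) ↔ _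
      tauto
    | ex φ ih =>
      intro m v hv
      have h1 : DZ.{u} fun s => ∃ x, ((s 0).IsOrdinal ∧ VH (s 0).rank x) ∧
          ((s 0).IsOrdinal ∧ Sat (VH (s 0).rank) φ (cons x (ev m v s))) := by
        refine DZ.ex (R := fun x s => ((s 0).IsOrdinal ∧ VH (s 0).rank x) ∧
          ((s 0).IsOrdinal ∧ Sat (VH (s 0).rank) φ (cons x (ev m v s)))) (DZ.and dz_VH ?_)
        refine ((ih (m + 1) v hv).ren (fun n => if n = 0 then 1 else if n = 1 then 0 else n)).congr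
          fun s => ?_
        have e : (cons (s 0) (ev m v fun n => s (n + 1))) = ev (m + 1) v
            (fun n => s (if n = 0 then 1 else if n = 1 then 0 else n)) := by
          funext n
          rcases n with _ | n
          · simp [ev]
          · simp [ev]
        show _ ∧ Sat _ φ (cons (s 0) (ev m v fun n => s (n + 1))) ↔ _
        rw [e]
        rfl
      refine h1.congr fun s => ?_
      show _ ∧ (∃ x, _ ∧ _) ↔ _
      constructor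
      · rintro ⟨h2, x, h3, h4⟩
        exact ⟨x, ⟨h2, h3⟩, h2, h4⟩
      · rintro ⟨x, ⟨h2, h3⟩, -, h4⟩
        exact ⟨h2, x, h3, h4⟩
  exact key

end Pool.Agent.H65.HDB.DSA
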