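import Pool.Agent.H7.HD.Targets12
import Pool.Agent.H7.HD.All
import Pool.Agent.H3.HD.DM
import Pool.Agent.H1.HD9.Y5
import Pool.Agent.H64.HDA.DN

/-! INA of hd8_modules: a cardinal with a normal measure in HOD is inaccessible in HOD. -/

open Ordinal Cardinal Order Set
open scoped ZFSet

universe u

namespace Pool.Agent.H65.HDB.INA

open _root_.HD
open Pool.Agent.H64.HDA.DN (nm_not nm_ne ds_inter ds_compl do_sInf)
open Pool.Agent.H17.HD.XK (nth_uniq dr_nth)

variable {κ : Ordinal.{u}} {W : ZFSet.{u}} {en : Ordinal.{u} → ZFSet.{u}}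

/-! ## Two facts on normal measures -/

/-- the lemma of Fodor -/
theorem fod (hU : NMe κ W) {A : Set Ordinal.{u}} (hA : DS A) (hAW : os κ A ∈ W)
    {h : Ordinal.{u} → Ordinal.{u}} (hh : DR fun a b => b = h a) (hlt : ∀ b ∈ A, h b < b) :
    ∃ i < κ, os κ {b | b ∈ A ∧ h b = i} ∈ W := by
  by_contra hcon
  push Not at hcon
  have hR : DR fun i b => ¬ (b ∈ A ∧ h b = i) := by
    refine DO.not ((hA.s1 1).and ?_)
    exact (DO.s2 (X := fun a b => b = h a) hh 1 0).congr fun w => eq_comm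
  have hds : ∀ i, DS {b | b ∈ A ∧ h b = i} := fun i => by
    refine (DO.sect1 hR i).not.congr fun w => ?_
    show _ ↔ ¬ ¬ _
    rw [not_not]
    rfl
  have h1 := hU.nrm _ hR fun a ha => nm_not hU (hds a) (hcon a ha)
  have hds1 : DS {b | ∀ a < b, ¬ (b ∈ A ∧ h b = a)} :=
    DO.allLt (R := fun a w => ¬ (w 0 ∈ A ∧ h (w 0) = a)) 0
      (DO.s2 (X := fun i b => ¬ (b ∈ A ∧ h b = i)) hR 0 1)
  have h2 := hU.int _ _ hA hds1 hAW h1
  obtain ⟨b, -, hb1, hb2⟩ := nm_ne hU (ds_inter hA hds1) h2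
  exact hb2 (h b) (hlt b hb1) ⟨hb1, rfl⟩

theorem ds_gt (a : Ordinal.{u}) : DS {b : Ordinal.{u} | a < b} := DO.gtc 0 a

/-- a set in the measure has two elements -/
theorem two (hU : NMe κ W) {A : Set Ordinal.{u}} (hA : DS A) (hAW : os κ A ∈ W) :
    ∃ i ∈ A, ∃ j ∈ A, i < j ∧ j < κ := by
  obtain ⟨i, hi, hiA⟩ := nm_ne hU hA hAW
  obtain ⟨j, hj, hjA, hij⟩ := nm_ne hU (ds_inter hA (ds_gt i))
    (hU.int _ _ hA (ds_gt i) hAW (hU.gt i hi))
  exact ⟨i, hiA, j, hjA, hij, hj⟩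

/-! ## Definability -/

theorem do_en (hen : EN en) {Q : ZFSet.{u} → ZFSet.{u} → Prop}
    (hQ : DZ fun s => Q (s 0) (s 1)) : DO fun w => Q (en (w 0)) (en (w 1)) := by
  have h1 : DZ.{u} fun s => ∃ x y, ((s 0).IsOrdinal ∧ x = en (s 0).rank) ∧
      ((s 1).IsOrdinal ∧ y = en (s 1).rank) ∧ Q x y := by
    refine DZ.ex (R := fun x s => ∃ y, ((s 0).IsOrdinal ∧ x = en (s 0).rank) ∧
      ((s 1).IsOrdinal ∧ y = en (s 1).rank) ∧ Q x y) ?_
    refine DZ.ex (R := fun y s => ((s 1).IsOrdinal ∧ s 0 = en (s 1).rank) ∧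
      ((s 2).IsOrdinal ∧ y = en (s 2).rank) ∧ Q (s 0) y) ?_
    refine DZ.and ?_ (DZ.and ?_ ?_)
    · exact hen.dz.ren (fun n => if n = 0 then 2 else 1)
    · exact hen.dz.ren (fun n => if n = 0 then 3 else 0)
    · exact hQ.ren (fun n => if n = 0 then 1 else 0)
  refine h1.do.congr fun w => ?_
  have e : ∀ i, (ov w i).rank = w i := fun i => rank_toZFSet _
  rw [e 0, e 1]
  constructor
  · intro h
    exact ⟨_, _, ⟨ZFSet.isOrdinal_toZFSet _, rfl⟩, ⟨ZFSet.isOrdinal_toZFSet _, rfl⟩, h⟩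
  · rintro ⟨x, y, ⟨-, rfl⟩, ⟨-, rfl⟩, h⟩
    exact h

theorem do_sub (hen : EN en) : DO fun w => en (w 0) ⊆ V_ (w 1) := by
  have h1 : DZ.{u} fun s => ∃ x y, ((s 0).IsOrdinal ∧ x = en (s 0).rank) ∧
      ((s 1).IsOrdinal ∧ y = V_ (s 1).rank) ∧ ∀ z ∈ x, z ∈ y := by
    refine DZ.ex (R := fun x s => ∃ y, ((s 0).IsOrdinal ∧ x = en (s 0).rank) ∧
      ((s 1).IsOrdinal ∧ y = V_ (s 1).rank) ∧ ∀ z ∈ x, z ∈ y) ?_
    refine DZ.ex (R := fun y s => ((s 1).IsOrdinal ∧ s 0 = en (s 1).rank) ∧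
      ((s 2).IsOrdinal ∧ y = V_ (s 2).rank) ∧ ∀ z ∈ s 0, z ∈ y) ?_
    refine DZ.and ?_ (DZ.and ?_ ?_)
    · exact hen.dz.ren (fun n => if n = 0 then 2 else 1)
    · exact (loc_V 3 0).dz
    · exact DZ.allMem (R := fun z s => z ∈ s 0) 1 (DZ.mem 0 1)
  refine h1.do.congr fun w => ?_
  have e : ∀ i, (ov w i).rank = w i := fun i => rank_toZFSet _
  rw [e 0, e 1]
  constructor
  · intro h
    exact ⟨_, _, ⟨ZFSet.isOrdinal_toZFSet _, rfl⟩, ⟨ZFSet.isOrdinal_toZFSet _, rfl⟩,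
      fun z hz => h hz⟩
  · rintro ⟨x, y, ⟨-, rfl⟩, ⟨-, rfl⟩, h⟩
    exact fun z hz => h z hz

/-- composition with definable functions -/
theorem do_comp {Q : Ordinal.{u} → Ordinal.{u} → Prop} (hQ : DR Q)
    {f g : Ordinal.{u} → Ordinal.{u}} (hf : DR fun a b => b = f a) (hg : DR fun a b => b = g a) :
    DR fun a b => Q (f a) (g b) := by
  have h1 : DO fun w => ∃ c, c = f (w 0) ∧ ∃ d, d = g (w 1) ∧ Q c d := by
    refine DO.ex (R := fun c w => c = f (w 0) ∧ ∃ d, d = g (w 1) ∧ Q c d)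
      ((DO.s2 (X := fun a b => b = f a) hf 1 0).and ?_)
    exact DO.ex (R := fun d w => d = g (w 2) ∧ Q (w 0) d)
      ((DO.s2 (X := fun a b => b = g a) hg 3 0).and (DO.s2 (X := Q) hQ 1 0))
  exact h1.congr fun w => by simp

theorem dr_id : DR.{u} fun a b => b = (fun x => x) a := DO.eq 1 0

/-- `os κ {i | R j i} ∈ W` is definable in `j` -/
theorem ds_in (hU : NMe κ W) {R : Ordinal.{u} → Ordinal.{u} → Prop} (hR : DR R) :
    DS {j | os κ {i | R j i} ∈ W} := by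
  have h1 : DZ.{u} fun v => v 0 ∈ W := DZ.od (R := fun x v => v 0 ∈ x) hU.hod.od (DZ.mem 1 0)
  have h2 : DO fun w => ∃ k, k = κ ∧ os k {i | R (w 0) i} ∈ W := by
    refine DO.ex (R := fun k w => k = κ ∧ os k {i | R (w 0) i} ∈ W) ((DO.eqc 0 κ).and ?_)
    exact DO.setArg (R := fun s _ => s ∈ W) h1 (X := fun i w => R (w 1) i)
      (DO.s2 (X := R) hR 2 0) 0
  exact h2.congr fun w => by simp

/-! ## Least codes -/

/-- the least codes of the elements of `V_ β` which are in HOD -/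
def S (en : Ordinal.{u} → ZFSet.{u}) (β : Ordinal.{u}) : Set Ordinal.{u} :=
  {z | HOD (en z) ∧ en z ∈ V_ β ∧ ∀ z' < z, en z' ≠ en z}

theorem ds_S (hen : EN en) (β : Ordinal.{u}) : DS (S en β) := by
  refine DO.and ?_ (DO.and ?_ ?_)
  · have := do_en hen (Q := fun x _ => HOD x) (Pool.Agent.H3.HD.DM.dz_hod 0)
    exact this
  · have h1 : DZ.{u} fun v => v 0 ∈ V_ β :=
      DZ.od (R := fun x v => v 0 ∈ x) (Pool.Agent.H1.HD9.Y5.od_V β) (DZ.mem 1 0)
    have := do_en hen (Q := fun x _ => x ∈ V_ β) h1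
    exact this
  · refine DO.allLt (R := fun z' w => en z' ≠ en (w 0)) 0 ?_
    exact (do_en hen (Q := fun x y => x = y) (DZ.eq 0 1)).not

theorem S_ex (hen : EN en) {β : Ordinal.{u}} {z : ZFSet.{u}} (hz : HOD z) (hβ : z ∈ V_ β) :
    ∃ c ∈ S en β, en c = z := by
  have hne : {c : Ordinal.{u} | en c = z}.Nonempty := (hen.od z).1 hz.od
  have h1 : en (sInf {c | en c = z}) = z := csInf_mem hne
  refine ⟨sInf {c | en c = z}, ⟨by rw [h1]; exact hz, by rw [h1]; exact hβ,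
    fun x' hx' he => ?_⟩, h1⟩
  exact absurd hx' (not_lt.2 (csInf_le' (show x' ∈ {c | en c = z} from he.trans h1)))

theorem S_inj {β x y : Ordinal.{u}} (hx : x ∈ S en β) (hy : y ∈ S en β) (h : en x = en y) :
    x = y := by
  apply le_antisymm
  · exact not_lt.1 fun hl => hx.2.2 _ hl h.symm
  · exact not_lt.1 fun hl => hy.2.2 _ hl h

/-- the target for one `β` -/
def Cl (en : Ordinal.{u} → ZFSet.{u}) (κ β : Ordinal.{u}) : Prop :=
  ∃ η < κ, ∃ e : Ordinal.{u} → Ordinal.{u}, (DR fun a b => b = e a) ∧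
    ∀ z, HOD z → z ∈ V_ β → ∃ i < η, z = en (e i)

/-- if the claim fails, then there is a sequence of length `κ` of different elements -/
theorem seq (hen : EN en) {β : Ordinal.{u}} (hn : ¬ Cl en κ β) :
    ∃ e : Ordinal.{u} → Ordinal.{u}, (DR fun a b => b = e a) ∧ (∀ i < κ, e i ∈ S en β) ∧
      ∀ i < κ, ∀ j < κ, en (e i) = en (e j) → i = j := by
  have hV := All.vh (S en β)
  have hnth : DR (nth (S en β)) := dr_nth All.db (ds_S hen β)
  let e : Ordinal.{u} → Ordinal.{u} := fun i => sInf {z | nth (S en β) i z}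
  have he : DR fun a b => b = e a := do_sInf (S := fun z w => nth (S en β) (w 0) z)
    (DO.s2 (X := fun a b => nth (S en β) a b) hnth 1 0) 1
  have hev : ∀ i z, nth (S en β) i z → e i = z := fun i z h => by
    have h1 : nth (S en β) i (e i) := csInf_mem (s := {z | nth (S en β) i z}) ⟨z, h⟩
    exact nth_uniq All.vh h1 h
  have hex : ∀ i < κ, ∃ z, nth (S en β) i z := by
    by_contra hcon
    push Not at hcon
    obtain ⟨i0, hi0, hno⟩ := hcon
    refine hn ⟨i0, hi0, e, he, fun z hz hzβ => ?_⟩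
    obtain ⟨c, hc, rfl⟩ := S_ex hen hz hzβ
    obtain ⟨a, -, ha⟩ := hV.1 c hc
    refine ⟨a, ?_, by rw [hev a c ha]⟩
    by_contra hlt
    push Not at hlt
    rcases hlt.eq_or_lt with h1 | h1
    · subst h1
      exact hno c ha
    · obtain ⟨y, -, hy⟩ := hV.2.2.1 a c ha i0 h1
      exact hno y hy
  have hn' : ∀ i < κ, nth (S en β) i (e i) := fun i hi => by
    obtain ⟨z, hz⟩ := hex i hi
    rw [hev i z hz]
    exact hz
  refine ⟨e, he, fun i hi => (hn' i hi).1, fun i hi j hj hij => ?_⟩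
  have h1 := S_inj (hn' i hi).1 (hn' j hj).1 hij
  have h2 := hn' i hi
  have h3 := hn' j hj
  rw [← h1] at h3
  apply le_antisymm
  · exact not_lt.1 fun hl => lt_irrefl _ ((hV.2.1 _ _ _ _ h3 h2).1 hl)
  · exact not_lt.1 fun hl => lt_irrefl _ ((hV.2.1 _ _ _ _ h2 h3).1 hl)

theorem X : T_INA.{u} := by
  intro en hen κ W hU β
  induction β using WellFoundedLT.induction with
  | ind β ih =>
  intro hβ
  by_contra hn
  obtain ⟨e, he, heS, hinj⟩ := seq hen (κ := κ) (β := β) hn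
  have hκ0 : 0 < κ := lt_of_le_of_lt zero_le hβ
  rcases Ordinal.zero_or_succ_or_isSuccLimit β with h0 | ⟨b', rfl⟩ | hlim
  · subst h0
    have h1 := (heS 0 hκ0).2.1
    rw [ZFSet.mem_vonNeumann] at h1
    exact absurd h1 (not_lt.2 zero_le)
  · -- successor
    have hb' : b' < succ b' := lt_succ b'
    obtain ⟨η, hη, e', he', hcov⟩ := ih b' hb' (hb'.trans hβ)
    have hM : DR fun j i => en (e' j) ∈ en (e i) :=
      do_comp (Q := fun a b => en a ∈ en b) (do_en hen (Q := fun x y => x ∈ y) (DZ.mem 0 1)) he' he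
    have hMs := ds_in hU hM
    let R : Ordinal.{u} → Ordinal.{u} → Prop := fun j i =>
      (en (e' j) ∈ en (e i) ↔ os κ {i | en (e' j) ∈ en (e i)} ∈ W)
    have hR : DR R := hM.iff (hMs.s1 0)
    have h1 := hU.nrm R hR fun j hj => by
      by_cases hj1 : os κ {i | en (e' j) ∈ en (e i)} ∈ W
      · refine hU.up _ _ (DO.sect1 hM j) (DO.sect1 hR j) hj1 fun b _ hb => ?_
        exact ⟨fun _ => hj1, fun _ => hb⟩
      · refine hU.up _ _ (ds_compl (DO.sect1 hM j)) (DO.sect1 hR j)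
          (nm_not hU (DO.sect1 hM j) hj1) fun b _ hb => ?_
        exact ⟨fun h => absurd h hb, fun h => absurd h hj1⟩
    have hds1 : DS {b | ∀ a < b, R a b} :=
      DO.allLt (R := fun a w => R a (w 0)) 0 (DO.s2 (X := R) hR 0 1)
    have h2 := hU.int _ _ hds1 (ds_gt η) h1 (hU.gt η hη)
    obtain ⟨i, ⟨hi1, hi2⟩, j, ⟨hj1, hj2⟩, hij, hjκ⟩ := two hU (ds_inter hds1 (ds_gt η)) h2
    have key : ∀ i j, i < κ → (∀ a < i, R a i) → (∀ a < j, R a j) → η < i → η < j →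
        en (e i) ⊆ en (e j) := by
      intro i j hiκ hi1 hj1 hi2 hj2 x hx
      have hS := heS i hiκ
      have hx1 : HOD x := hS.1.mem hx
      have hx2 : x ∈ V_ b' := by
        have h3 := hS.2.1
        rw [ZFSet.mem_vonNeumann, lt_succ_iff] at h3
        rw [ZFSet.mem_vonNeumann]
        exact (ZFSet.rank_lt_of_mem hx).trans_le h3
      obtain ⟨a, ha, rfl⟩ := hcov x hx1 hx2
      have h4 : R a i := hi1 a (ha.trans hi2)
      have h5 : R a j := hj1 a (ha.trans hj2)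
      exact h5.2 (h4.1 hx)
    have h6 : en (e i) = en (e j) := by
      ext x
      exact ⟨fun h => key i j (hij.trans hjκ) hi1 hj1 hi2 hj2 h,
        fun h => key j i hjκ hj1 hi1 hj2 hi2 h⟩
    exact absurd (hinj i (hij.trans hjκ) j hjκ h6) hij.ne
  · -- limit
    have hr : DR fun a b => b = sInf {r | en (e a) ⊆ V_ r} := by
      refine do_sInf (S := fun r w => en (e (w 0)) ⊆ V_ r) ?_ 1
      exact DO.s2 (X := fun a b => en (e a) ⊆ V_ b)
        (do_comp (Q := fun a b => en a ⊆ V_ b) (do_sub hen) he dr_id) 1 0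
    have hrb : ∀ i < κ, en (e i) ⊆ V_ (sInf {r | en (e i) ⊆ V_ r}) ∧
        sInf {r | en (e i) ⊆ V_ r} < β := by
      intro i hi
      have h1 := (heS i hi).2.1
      rw [ZFSet.mem_vonNeumann] at h1
      have h2 : en (e i) ⊆ V_ (en (e i)).rank := ZFSet.subset_vonNeumann.2 le_rfl
      exact ⟨csInf_mem (s := {r | en (e i) ⊆ V_ r}) ⟨_, h2⟩,
        lt_of_le_of_lt (csInf_le' (s := {r | en (e i) ⊆ V_ r}) h2) h1⟩
    -- the set of the `b` with `β < b < κ`
    have hdsA : DS {b | β < b ∧ b < κ} := (DO.gtc 0 β).and (DO.ltc 0 κ)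
    have hA : os κ {b | β < b ∧ b < κ} ∈ W :=
      hU.up _ _ (ds_gt β) hdsA (hU.gt β hβ) fun b hb h => ⟨h, hb⟩
    obtain ⟨r, -, hrW⟩ := fod hU hdsA hA hr fun b hb => (hrb b hb.2).2.trans hb.1
    have hdsB : DS {b | b ∈ {b | β < b ∧ b < κ} ∧ sInf {r | en (e b) ⊆ V_ r} = r} := by
      refine DO.and hdsA ?_
      refine (DO.ex (R := fun z w => z = sInf {r | en (e (w 0)) ⊆ V_ r} ∧ z = r)
        ((DO.s2 (X := fun a b => b = sInf {r | en (e a) ⊆ V_ r}) hr 1 0).and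
          (DO.eqc 0 r))).congr fun w => ?_
      simp
    obtain ⟨i1, -, hi1⟩ := nm_ne hU hdsB hrW
    have hrβ : r < β := by
      rw [← hi1.2]
      exact (hrb i1 hi1.1.2).2
    have hr1 : succ r < β := hlim.succ_lt hrβ
    obtain ⟨η, hη, e', he', hcov⟩ := ih (succ r) hr1 (hr1.trans hβ)
    have hdsC : DS {b | η < b} := ds_gt η
    have hC := hU.int _ _ hdsB hdsC hrW (hU.gt η hη)
    have hE : DR fun a b => en (e' a) = en (e b) :=
      do_comp (Q := fun a b => en a = en b) (do_en hen (Q := fun x y => x = y) (DZ.eq 0 1)) he' he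
    have hs : DR fun a b => b = sInf {j | en (e' j) = en (e a)} := by
      refine do_sInf (S := fun j w => en (e' j) = en (e (w 0))) ?_ 1
      exact DO.s2 (X := fun a b => en (e' a) = en (e b)) hE 0 1
    have hsb : ∀ b ∈ {b | b ∈ {b | β < b ∧ b < κ} ∧ sInf {r | en (e b) ⊆ V_ r} = r} ∩
        {b | η < b}, en (e' (sInf {j | en (e' j) = en (e b)})) = en (e b) ∧
          sInf {j | en (e' j) = en (e b)} < b := by
      rintro b ⟨⟨⟨hb1, hb2⟩, hb3⟩, hb4⟩
      have h3 := heS b hb2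
      have h4 : en (e b) ∈ V_ (succ r) := by
        have h5 := (hrb b hb2).1
        rw [hb3] at h5
        rw [ZFSet.mem_vonNeumann, lt_succ_iff]
        exact ZFSet.subset_vonNeumann.1 h5
      obtain ⟨j, hj, hj'⟩ := hcov _ h3.1 h4
      have h6 : j ∈ {j | en (e' j) = en (e b)} := hj'.symm
      exact ⟨csInf_mem (s := {j | en (e' j) = en (e b)}) ⟨j, h6⟩,
        lt_of_le_of_lt (csInf_le' h6) (hj.trans hb4)⟩
    obtain ⟨j0, -, hj0⟩ := fod hU (ds_inter hdsB hdsC) hC hs fun b hb => (hsb b hb).2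
    have hdsD : DS {b | b ∈ {b | b ∈ {b | β < b ∧ b < κ} ∧ sInf {r | en (e b) ⊆ V_ r} = r} ∩
        {b | η < b} ∧ sInf {j | en (e' j) = en (e b)} = j0} := by
      refine DO.and (ds_inter hdsB hdsC) ?_
      refine (DO.ex (R := fun z w => z = sInf {j | en (e' j) = en (e (w 0))} ∧ z = j0)
        ((DO.s2 (X := fun a b => b = sInf {j | en (e' j) = en (e a)}) hs 1 0).and
          (DO.eqc 0 j0))).congr fun w => ?_
      simp
    obtain ⟨i, hi, j, hj, hij, hjκ⟩ := two hU hdsD hj0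
    have h7 := (hsb i hi.1).1
    have h8 := (hsb j hj.1).1
    rw [hi.2] at h7
    rw [hj.2] at h8
    exact absurd (hinj i (hij.trans hjκ) j hjκ (h7.symm.trans h8)) hij.ne

end Pool.Agent.H65.HDB.INA
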